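import Mathlib
import Pool.Agent.Helper4.QZ.SumSquares

/-!
# Actions of `SL_n(R)` for rings in which `-1` is a sum of two squares

Let `R` be a commutative ring with `2 ≠ 0` and `R / 2 R` finite in which `-1 = x ^ 2 + y ^ 2` is
solvable, for instance `ℤ[√(-d)]` with `t ^ 2 - d s ^ 2 = -1` solvable (`d = t ^ 2 + 1`), or `ℤ[ω]`.
Let `n ≥ 3` and let `Γ` be a group with a homomorphism from `SL_n(R)` such that the image of the
group `El n R` generated by the elementary matrices has finite index in `Γ` (for orders in number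
fields `El n R` has finite index in `SL_n(R)`, by Bass, Milnor and Serre).

Suppose that `Γ` acts on a closed connected smooth manifold `M` of dimension `m` such that the
elements of `SL_n(R)` of order dividing four act by smooth maps.  If the Euler characteristic of `M`
is odd (`morseSum f`, the sum over the critical points of the signs of the Hessian determinants, is
odd for all Morse functions `f`; it has the parity of the number of critical points) and
`m < 4 * ⌊(n - 1) / 2⌋`, then the image of `Γ` in the group of permutations of `M` is finite.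

For `n` odd the condition is `m ≤ 2 n - 3`.

Idea of the proof.  `SL_2(R)` contains the quaternion group `Q8`, and `SL_n(R)` contains `Q8 ^ k`,
`k = ⌊(n - 1) / 2⌋`.  By means of an invariant Morse function this `2`-group has a fixed point.  In
the tangent space every weight space of a nontrivial character of the centre of `Q8 ^ k` is a module
over the quaternions, so its dimension is at least four.  So if `m < 4 k` some nontrivial central
element, a non-scalar diagonal matrix with entries `± 1`, acts trivially on `M`, and the kernel of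
the action contains the elementary matrices with entries in `2 R`.
-/

set_option autoImplicit false

open Matrix Module
open scoped Manifold ContDiff

namespace Pool.Agent.Helper38.Old.SumOfTwoSquares

open Pool.Agent.Helper4.ZIM Pool.Agent.Helper4.MORSE Pool.Agent.Helper4.QZ

/-- **Theorem.** -/
theorem result {n : ℕ} (hn : 3 ≤ n) {R : Type*} [CommRing R] (h2 : (2 : R) ≠ 0)
    (hR : ∃ x y : R, x ^ 2 + y ^ 2 = -1) [Finite (R ⧸ Ideal.span {(2 : R)})]
    {Γ : Type*} [Group Γ] (ι : SpecialLinearGroup (Fin n) R →* Γ)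
    [((El n R).map ι).FiniteIndex]
    {E : Type*} [NormedAddCommGroup E] [NormedSpace ℝ E] [FiniteDimensional ℝ E]
    {M : Type*} [TopologicalSpace M] [ChartedSpace E M] [IsManifold 𝓘(ℝ, E) ∞ M]
    [T2Space M] [CompactSpace M] [PreconnectedSpace M] [MulAction Γ M]
    (hsm : ∀ g : SpecialLinearGroup (Fin n) R, g ^ 4 = 1 →
      ContMDiff 𝓘(ℝ, E) 𝓘(ℝ, E) ∞ (fun p : M => ι g • p))
    (hχ : ∀ f : M → ℝ, IsMorse E f → Odd (morseSum E f))
    (hdim : finrank ℝ E < 4 * ((n - 1) / 2)) :
    Finite (MulAction.toPermHom Γ M).range := by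
  obtain ⟨x, y, hxy⟩ := hR
  exact main_sum_squares hn h2 hxy ι hsm
    (fun f hf h => (Int.not_even_iff_odd.mpr (hχ f hf)) (even_iff_two_dvd.mpr h)) hdim

/-- The example `R = ℤ[√(-d)]` with `t ^ 2 - d * s ^ 2 = -1`. -/
theorem sqrt_neg {n : ℕ} (hn : 3 ≤ n) {d s t : ℤ} (hd : t ^ 2 - d * s ^ 2 = -1)
    [((El n (ℤ√(-d)))).FiniteIndex]
    {E : Type*} [NormedAddCommGroup E] [NormedSpace ℝ E] [FiniteDimensional ℝ E]
    {M : Type*} [TopologicalSpace M] [ChartedSpace E M] [IsManifold 𝓘(ℝ, E) ∞ M]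
    [T2Space M] [CompactSpace M] [PreconnectedSpace M]
    [MulAction (SpecialLinearGroup (Fin n) (ℤ√(-d))) M]
    (hsm : ∀ g : SpecialLinearGroup (Fin n) (ℤ√(-d)),
      ContMDiff 𝓘(ℝ, E) 𝓘(ℝ, E) ∞ (fun p : M => g • p))
    (hχ : ∀ f : M → ℝ, IsMorse E f → Odd (morseSum E f))
    (hdim : finrank ℝ E < 4 * ((n - 1) / 2)) :
    Finite (MulAction.toPermHom (SpecialLinearGroup (Fin n) (ℤ√(-d))) M).range := by
  have h2 : (2 : ℤ√(-d)) ≠ 0 := by
    intro h
    have := congrArg Zsqrtd.re h
    simp at this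
  have hxy : ((t : ℤ) : ℤ√(-d)) ^ 2 + (⟨0, s⟩ : ℤ√(-d)) ^ 2 = -1 := by
    apply Zsqrtd.ext
    · simp only [pow_two, Zsqrtd.re_add, Zsqrtd.re_mul, Zsqrtd.re_neg, Zsqrtd.re_one,
        Zsqrtd.re_intCast, Zsqrtd.im_intCast]
      linarith
    · simp only [pow_two, Zsqrtd.im_add, Zsqrtd.im_mul, Zsqrtd.im_neg, Zsqrtd.im_one,
        Zsqrtd.re_intCast, Zsqrtd.im_intCast]
      ring
  have hfin : Finite (ℤ√(-d) ⧸ Ideal.span {(2 : ℤ√(-d))}) := by
    apply Finite.of_surjective (fun z : Fin 2 × Fin 2 =>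
      Ideal.Quotient.mk (Ideal.span {(2 : ℤ√(-d))})
        (⟨((z.1 : ℕ) : ℤ), ((z.2 : ℕ) : ℤ)⟩ : ℤ√(-d)))
    intro w
    obtain ⟨z, rfl⟩ := Ideal.Quotient.mk_surjective w
    refine ⟨(⟨(z.re % 2).toNat, by omega⟩, ⟨(z.im % 2).toNat, by omega⟩), ?_⟩
    rw [Ideal.Quotient.eq, Ideal.mem_span_singleton']
    refine ⟨⟨-(z.re / 2), -(z.im / 2)⟩, ?_⟩
    have h1 := Int.emod_add_mul_ediv z.re 2
    have h2 := Int.emod_add_mul_ediv z.im 2
    have h3 : ((z.re % 2).toNat : ℤ) = z.re % 2 := Int.toNat_of_nonneg (by omega)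
    have h4 : ((z.im % 2).toNat : ℤ) = z.im % 2 := Int.toNat_of_nonneg (by omega)
    have e2 : (2 : ℤ√(-d)) = ((2 : ℤ) : ℤ√(-d)) := by norm_cast
    rw [e2]
    apply Zsqrtd.ext
    · simp only [Zsqrtd.re_mul, Zsqrtd.re_intCast, Zsqrtd.im_intCast, Zsqrtd.re_sub, h3]
      linarith
    · simp only [Zsqrtd.im_mul, Zsqrtd.re_intCast, Zsqrtd.im_intCast, Zsqrtd.im_sub, h4]
      linarith
  have : ((El n (ℤ√(-d))).map (MonoidHom.id (SpecialLinearGroup (Fin n) (ℤ√(-d))))).FiniteIndex := by
    rw [Subgroup.map_id]; infer_instance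
  exact result hn h2 ⟨_, _, hxy⟩ (MonoidHom.id _) (fun g _ => hsm g) hχ hdim

end Pool.Agent.Helper38.Old.SumOfTwoSquares
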